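import Pool.Agent.helper7.MC.Bridge
import Pool.Agent.helper98.MC.Polar
import Pool.Agent.helper8.MC.CDat

set_option autoImplicit false

/-!
# MC (MP_56b5c1), section 3: from `CDat` to `TData`
-/

noncomputable section

namespace Pool.Agent.helper72.MC2

open Pool.Agent.helper8.MC

open scoped RealInnerProductSpace ContDiff

variable {n : ℕ} {V W H : Type} [NormedAddCommGroup V] [InnerProductSpace ℝ V]
  [NormedAddCommGroup W] [InnerProductSpace ℝ W] [NormedAddCommGroup H] [InnerProductSpace ℝ H]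

/-- first block -/
def alp (n : ℕ) : Eu (n + 1) →L[ℝ] RB n :=
  (catL n).comp (ContinuousLinearMap.inl ℝ (Eu (n + 1)) (Eu (n + 1)))

/-- second block -/
def bet (n : ℕ) : Eu n →L[ℝ] RB n :=
  ((catL n).comp (ContinuousLinearMap.inr ℝ (Eu (n + 1)) (Eu (n + 1)))).comp
    ((snL n).comp (ContinuousLinearMap.inl ℝ (Eu n) ℝ))

/-- last coordinate -/
def gam (n : ℕ) : ℝ →L[ℝ] RB n :=
  ((catL n).comp (ContinuousLinearMap.inr ℝ (Eu (n + 1)) (Eu (n + 1)))).comp
    ((snL n).comp (ContinuousLinearMap.inr ℝ (Eu n) ℝ))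

theorem alp_apply (u : Eu (n + 1)) : alp n u = cat u 0 := rfl

theorem bet_apply (u : Eu n) : bet n u = cat 0 (sn u 0) := rfl

theorem gam_apply (u : ℝ) : gam n u = cat 0 (sn 0 u) := rfl

/-- the `TData` of a `CDat` -/
def toT (D : CDat n V W H) : Pool.Agent.helper7.MC.TData n V (RB n) H where
  T := D.tens
  I := D.incl
  α := alp n
  β := bet n
  γ := gam n
  hT := D.inner_tens
  hI := D.inner_incl
  hTI := D.tens_incl
  hα u u' := by
    rw [alp_apply, alp_apply, inner_cat, inner_zero_left, add_zero]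
  hβ u u' := by
    rw [bet_apply, bet_apply, inner_cat, inner_zero_left, zero_add, inner_sn, mul_zero, add_zero]
  hγ u u' := by
    rw [gam_apply, gam_apply, inner_cat, inner_zero_left, zero_add, inner_sn, inner_zero_left,
      zero_add]
  hαβ u u' := by
    rw [alp_apply, bet_apply, inner_cat, inner_zero_left, inner_zero_right, zero_add]
  hαγ u u' := by
    rw [alp_apply, gam_apply, inner_cat, inner_zero_left, inner_zero_right, zero_add]
  hβγ u u' := by
    rw [bet_apply, gam_apply, inner_cat, inner_zero_left, zero_add, inner_sn, inner_zero_right,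
      zero_mul, zero_add]

theorem had_eq (a b : Eu n) : Pool.Agent.helper7.MC.had a b = hm a b := rfl

theorem sinv_eq (s : Eu n) : Pool.Agent.helper7.MC.sinv s = sinv s := rfl

theorem cosv_eq (s : Eu n) : Pool.Agent.helper7.MC.cosv s = cosv s := rfl

theorem abc_eq (u : Eu (n + 1)) (r : Eu n) (c : ℝ) :
    alp n u + bet n r + gam n c = cat u (sn r c) := by
  rw [alp_apply, bet_apply, gam_apply, ← cat_add, ← cat_add, add_zero, add_zero, zero_add,
    ← sn_add, add_zero, zero_add]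

theorem ab_eq (u : Eu (n + 1)) (r : Eu n) :
    alp n u + bet n r = cat u (sn r 0) := by
  rw [alp_apply, bet_apply, ← cat_add, add_zero, zero_add]

/-- `J` of the `TData` -/
theorem toT_JJ (D : CDat n V W H) (y : Eu (n + 1)) (s : Eu n) (u : Eu (n + 1)) (r : Eu n) (c : ℝ) :
    (toT D).JJ (D.j y) y s u r c = D.JJ y s (u - ⟪y, u⟫ • y) r c := by
  show D.tens (D.j y) (alp n (u - ⟪y, u⟫ • y) + bet n (hm r (cosv s)) + gam n c)
    - D.incl (hm r (sinv s)) = _
  rw [abc_eq]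
  rfl

/-- `φ` of the `TData` -/
theorem toT_Phi (D : CDat n V W H) (y : Eu (n + 1)) (s : Eu n) :
    (toT D).Phi (D.j y) y s = D.phi y s := by
  show D.tens (D.j y) (√n • alp n y + bet n (sinv s)) + D.incl (cosv s) = _
  rw [← map_smul, ab_eq]
  rfl

theorem toT_eq_ofC (D : CDat n V W H) : toT D = Pool.Agent.helper7.MC.ofC D := rfl

/-- first `n` coordinates -/
def ini (n : ℕ) : Eu (n + 1) →L[ℝ] Eu n := LinearMap.toContinuousLinearMap
  { toFun := fun z => WithLp.toLp 2 fun i => z i.castSucc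
    map_add' := fun _ _ => rfl
    map_smul' := fun _ _ => rfl }

/-- last coordinate -/
def las (n : ℕ) : Eu (n + 1) →L[ℝ] ℝ := LinearMap.toContinuousLinearMap
  { toFun := fun z => z (Fin.last n)
    map_add' := fun _ _ => rfl
    map_smul' := fun _ _ => rfl }

theorem ini_apply (z : Eu (n + 1)) (i : Fin n) : ini n z i = z i.castSucc := rfl

theorem las_apply (z : Eu (n + 1)) : las n z = z (Fin.last n) := rfl

theorem ini_sn (w : Eu n) (z : ℝ) : ini n (sn w z) = w := by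
  ext i
  rw [ini_apply, sn_castSucc]

theorem las_sn (w : Eu n) (z : ℝ) : las n (sn w z) = z := by
  rw [las_apply, sn_last]

theorem sn_ini_las (z : Eu (n + 1)) : sn (ini n z) (las n z) = z := by
  ext i
  refine Fin.lastCases ?_ (fun i => ?_) i
  · rw [sn_last, las_apply]
  · rw [sn_castSucc, ini_apply]

/-- `Θ` as a linear map of `(ω, ζ)`, `ζ = (w, z)`. -/
def Th (D : CDat n V W H) (y : Eu (n + 1)) (s : Eu n) : W × Eu (n + 1) →L[ℝ] H :=
  (D.Ps y).comp (ContinuousLinearMap.fst ℝ W (Eu (n + 1))) +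
  (D.tens (D.j y)).comp
    (((las n).comp (ContinuousLinearMap.snd ℝ W (Eu (n + 1)))).smulRight (alp n y) +
      (bet n).comp (((hmL n) (sinv s)).comp
        ((ini n).comp (ContinuousLinearMap.snd ℝ W (Eu (n + 1)))))) +
  D.incl.comp (((hmL n) (cosv s)).comp ((ini n).comp (ContinuousLinearMap.snd ℝ W (Eu (n + 1)))))

theorem Th_apply (D : CDat n V W H) (y : Eu (n + 1)) (s : Eu n) (v : W × Eu (n + 1)) :
    Th D y s v = D.Th y s (v.1, (las n v.2, ini n v.2)) := by
  show D.Ps y v.1 + D.tens (D.j y) (las n v.2 • alp n y + bet n (hm (sinv s) (ini n v.2)))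
      + D.incl (hm (cosv s) (ini n v.2)) = D.Ps y v.1 + D.tens (D.j y)
      (cat (las n v.2 • y) (sn (hm (ini n v.2) (sinv s)) 0)) + D.incl (hm (ini n v.2) (cosv s))
  rw [hm_comm (sinv s), hm_comm (cosv s), ← map_smul, ab_eq]

theorem nv_eq (v : W × Eu (n + 1)) : nv (v.1, (las n v.2, ini n v.2)) = vN v := by
  refine (sq_eq_sq₀ (nv_nonneg _) (vN_nonneg v)).1 ?_
  rw [nv_sq, vN_sq, ip_self]
  have h1 : ‖v.2‖ ^ 2 = ‖ini n v.2‖ ^ 2 + las n v.2 ^ 2 := by
    conv_lhs => rw [← sn_ini_las v.2]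
    rw [norm_sn]
  rw [h1]
  ring

theorem norm_Th (D : CDat n V W H) {y : Eu (n + 1)} (hy : ‖y‖ = 1) (s : Eu n)
    (v : W × Eu (n + 1)) : ‖Th D y s v‖ = vN v := by
  rw [Th_apply, D.norm_Th hy, nv_eq]

theorem inner_Th_JJ (D : CDat n V W H) {y : Eu (n + 1)} (hy : ‖y‖ = 1) (s : Eu n)
    (v : W × Eu (n + 1)) (u : Eu (n + 1)) (r : Eu n) (c : ℝ) :
    ⟪Th D y s v, (toT D).JJ (D.j y) y s u r c⟫ = 0 := by
  rw [Th_apply, toT_JJ, D.inner_Th_JJ hy, inner_sub_right, real_inner_smul_right,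
    real_inner_self_eq_norm_sq, hy]
  ring

theorem inner_Th_ofC (D : CDat n V W H) {y : Eu (n + 1)} (hy : ‖y‖ = 1) (s : Eu n)
    (v : W × Eu (n + 1)) (u : Eu (n + 1)) (r : Eu n) (c : ℝ) :
    ⟪Th D y s v, (Pool.Agent.helper7.MC.ofC D).JJ (D.j y) y s u r c⟫ = 0 :=
  inner_Th_JJ D hy s v u r c

theorem exists_Th (D : CDat n V W H) {y : Eu (n + 1)} (hy : ‖y‖ = 1) (s : Eu n) (q : H)
    (hq : ∀ u r c, ⟪q, (toT D).JJ (D.j y) y s u r c⟫ = 0) :
    ∃ v : W × Eu (n + 1), Th D y s v = q := by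
  obtain ⟨v, u, χ, c, hu, h⟩ := D.exists_Th_JJ hy s q
  have h0 : (toT D).JJ (D.j y) y s u χ c = D.JJ y s u χ c := by
    rw [toT_JJ, hu, zero_smul, sub_zero]
  have h1 := hq u χ c
  rw [h0, h, inner_add_left, D.inner_Th_JJ hy, hu, mul_zero, zero_add,
    real_inner_self_eq_norm_sq] at h1
  have h2 : D.JJ y s u χ c = 0 := by simpa using h1
  refine ⟨(v.1, sn v.2.2 v.2.1), ?_⟩
  rw [Th_apply, las_sn, ini_sn, h, h2, add_zero]

theorem exists_Th_ofC (D : CDat n V W H) {y : Eu (n + 1)} (hy : ‖y‖ = 1) (s : Eu n) (q : H)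
    (hq : ∀ u r c, ⟪q, (Pool.Agent.helper7.MC.ofC D).JJ (D.j y) y s u r c⟫ = 0) :
    ∃ v : W × Eu (n + 1), Th D y s v = q := exists_Th D hy s q hq

theorem contDiff_Th (D : CDat n V W H) :
    ContDiff ℝ ∞ (fun q : Eu (n + 1) × Eu n => Th D q.1 q.2) := by
  have h1 : ContDiff ℝ ∞ (fun q : Eu (n + 1) × Eu n => sinv q.2) :=
    Pool.Agent.helper8.MC.contDiff_sinv.comp contDiff_snd
  have h2 : ContDiff ℝ ∞ (fun q : Eu (n + 1) × Eu n => cosv q.2) :=
    Pool.Agent.helper8.MC.contDiff_cosv.comp contDiff_snd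
  have h3 : ContDiff ℝ ∞ (fun q : Eu (n + 1) × Eu n => hmL n (sinv q.2)) :=
    (hmL n).contDiff.comp h1
  have h4 : ContDiff ℝ ∞ (fun q : Eu (n + 1) × Eu n => hmL n (cosv q.2)) :=
    (hmL n).contDiff.comp h2
  have h5 : ContDiff ℝ ∞ (fun q : Eu (n + 1) × Eu n => D.tens (D.j q.1)) :=
    D.tens.contDiff.comp (D.j.contDiff.comp contDiff_fst)
  have h6 : ContDiff ℝ ∞ (fun q : Eu (n + 1) × Eu n => D.Ps q.1) :=
    D.Ps.contDiff.comp contDiff_fst
  have h7 : ContDiff ℝ ∞ (fun q : Eu (n + 1) × Eu n => alp n q.1) :=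
    (alp n).contDiff.comp contDiff_fst
  unfold Th
  refine ((h6.clm_comp contDiff_const).add (h5.clm_comp (?_ : ContDiff ℝ ∞ _))).add
    (contDiff_const.clm_comp (h4.clm_comp contDiff_const))
  refine ContDiff.add ?_ (contDiff_const.clm_comp (h3.clm_comp contDiff_const))
  exact contDiff_const.smulRight h7

theorem Th_neg (D : CDat n V W H) (y : Eu (n + 1)) (s : Eu n) (v : W × Eu (n + 1)) :
    Th D (-y) (-s) (-v.1, v.2) = Th D y s v := by
  rw [Th_apply, Th_apply]
  exact D.Th_neg y s (v.1, (las n v.2, ini n v.2))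

theorem Th_per (D : CDat n V W H) (y : Eu (n + 1)) (s : Eu n) (k : Fin n → ℤ)
    (v : W × Eu (n + 1)) : Th D y (s + per k) v = Th D y s v := by
  rw [Th_apply, Th_apply]
  exact D.Th_per y s k (v.1, (las n v.2, ini n v.2))

/-- `Θ` and the group -/
theorem Th_act (D : CDat n V W H) (g : Gam n) (y : Eu (n + 1)) (s : Eu n) (v : W × Eu (n + 1)) :
    Th D (g.sg • y) (g.sg • s + per g.k) (g.sg • v.1, v.2) = Th D y s v := by
  rw [Th_per]
  rcases g.sg_eq with h | h
  · rw [h, one_smul, one_smul, one_smul]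
  · rw [h, neg_one_smul, neg_one_smul, neg_one_smul, Th_neg]

/-- `φ` and the group -/
theorem phi_act (D : CDat n V W H) (g : Gam n) (y : Eu (n + 1)) (s : Eu n) :
    D.phi (g.sg • y) (g.sg • s + per g.k) = D.phi y s := by
  rw [D.phi_per]
  rcases g.sg_eq with h | h
  · rw [h, one_smul, one_smul]
  · rw [h, neg_one_smul, neg_one_smul, D.phi_neg]

theorem Phi_act (D : CDat n V W H) (g : Gam n) (y : Eu (n + 1)) (s : Eu n) :
    (toT D).Phi (D.j (g.sg • y)) (g.sg • y) (g.sg • s + per g.k) = (toT D).Phi (D.j y) y s := by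
  rw [toT_Phi, toT_Phi, phi_act]

theorem Phi_act_ofC (D : CDat n V W H) (g : Gam n) (y : Eu (n + 1)) (s : Eu n) :
    (Pool.Agent.helper7.MC.ofC D).Phi (D.j (g.sg • y)) (g.sg • y) (g.sg • s + per g.k)
      = (Pool.Agent.helper7.MC.ofC D).Phi (D.j y) y s := Phi_act D g y s

end Pool.Agent.helper72.MC2
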