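import Pool.Agent.helper72.MC2.Conc
import Pool.Agent.helper7.MC.F0

set_option autoImplicit false

/-!
# MC (MP_56b5c1), section 3: the instance `ThData`
-/

noncomputable section

namespace Pool.Agent.helper72.MC2

open Pool.Agent.helper8.MC

open Pool.Agent.helper7.MC (ofC ThData)

variable {n : ℕ} {V W H : Type} [NormedAddCommGroup V] [InnerProductSpace ℝ V]
  [NormedAddCommGroup W] [InnerProductSpace ℝ W] [NormedAddCommGroup H] [InnerProductSpace ℝ H]

/-- the properties of `Θ` -/
theorem thData (D : CDat n V W H) : ThData (ofC D) D.j (Th D) where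
  smooth := contDiff_Th D
  norm _ hy s v := norm_Th D hy s v
  orth _ hy s v u r c := inner_Th_ofC D hy s v u r c
  full _ hy s q hq := exists_Th_ofC D hy s q hq
  act g y s v := Th_act D g y s v

end Pool.Agent.helper72.MC2
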